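import Pool.Agent.Q22.CSDefs
import Pool.Agent.Q22.CSFinal

/-! Every infinite group is the product of a countable subset and a small subset. -/

namespace Pool.Agent.Results.MP_ffa63f_al.CountableSmall

open Q22.CS Pointwise

universe u

/-- For every infinite group `G` there are a countable subset `C` and a small subset `S` with
`G = C S`. -/
theorem result :
    ∀ (G : Type u) [Group G] [Infinite G],
      ∃ C S : Set G, C.Countable ∧ IsSmall S ∧ C * S = Set.univ :=
  fun G _ _ => main G

end Pool.Agent.Results.MP_ffa63f_al.CountableSmall
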